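import Pool.Agent.Lib.MP_dd244f_an.Op

set_option autoImplicit false

namespace Pool.Agent.Lib.MP_dd244f_an
open MeasureTheory SchwartzMap FourierTransform
open scoped SchwartzMap ContDiff

theorem integral_fourierInv_mul {φ g : ℂ → ℂ} (hφ : Integrable φ) (hg : Integrable g) :
    ∫ x, 𝓕⁻ φ x * g x = ∫ x, φ x * 𝓕⁻ g x := by
  have := VectorFourier.integral_fourierIntegral_smul_eq_flip (μ := (volume : Measure ℂ))
    (ν := (volume : Measure ℂ)) (e := Real.fourierChar) (L := -innerₗ ℂ)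
    Real.continuous_fourierChar (by
      have : Continuous fun p : ℂ × ℂ => -(inner ℝ p.1 p.2) := by fun_prop
      exact this) hφ hg
  have e1 : ∀ h : ℂ → ℂ, VectorFourier.fourierIntegral Real.fourierChar volume (-innerₗ ℂ) h
      = 𝓕⁻ h := by
    intro h
    ext w
    rw [Real.fourierInv_eq]
    unfold VectorFourier.fourierIntegral
    apply integral_congr_ae
    filter_upwards with v
    simp
  have e2 : (-innerₗ ℂ).flip = -innerₗ ℂ := by
    ext v w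
    simp
    ring
  rw [e2, e1, e1] at this
  simpa [smul_eq_mul] using this

theorem fourierInv_L2 {g : ℂ → ℂ} (h1 : Integrable g) (h2 : MemLp g 2) :
    eLpNorm (𝓕⁻ g) 2 volume = eLpNorm g 2 volume := by
  set G : Lp ℂ 2 (volume : Measure ℂ) := h2.toLp g with hG
  set F : Lp ℂ 2 (volume : Measure ℂ) := 𝓕⁻ G with hF
  have hcont : Continuous (𝓕⁻ g) := by
    have : 𝓕⁻ g = fun w => 𝓕 g (-w) := by
      ext w; rw [Real.fourierInv_eq_fourier_neg]
    rw [this]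
    have hc : Continuous (𝓕 g) :=
      VectorFourier.fourierIntegral_continuous Real.continuous_fourierChar
        (by exact continuous_inner) h1
    exact hc.comp continuous_neg
  have hae : ∀ᵐ x ∂(volume : Measure ℂ), (F : ℂ → ℂ) x = 𝓕⁻ g x := by
    apply ae_eq_of_integral_contDiff_smul_eq
    · exact (Lp.memLp F).locallyIntegrable (by norm_num)
    · exact hcont.locallyIntegrable
    · intro φ hφ hφc
      have hΦs : ContDiff ℝ ∞ (fun x => ((φ x : ℝ) : ℂ)) := Complex.ofRealCLM.contDiff.comp hφ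
      have hΦc : HasCompactSupport (fun x => ((φ x : ℝ) : ℂ)) :=
        hφc.comp_left (g := fun r : ℝ => (r : ℂ)) (by simp)
      set Φ : 𝓢(ℂ, ℂ) := hΦc.toSchwartzMap hΦs with hΦ
      have hΦapp : ∀ x, Φ x = (φ x : ℂ) := fun x => rfl
      have key : (F : 𝓢'(ℂ, ℂ)) Φ = (G : 𝓢'(ℂ, ℂ)) (𝓕⁻ Φ) := by
        rw [hF, ← Lp.fourierInv_toTemperedDistribution_eq, TemperedDistribution.fourierInv_apply]
      rw [Lp.toTemperedDistribution_apply, Lp.toTemperedDistribution_apply] at key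
      have e1 : ∫ x, φ x • (F : ℂ → ℂ) x = ∫ x, Φ x • (F : ℂ → ℂ) x := by
        apply integral_congr_ae
        filter_upwards with x
        rw [hΦapp, smul_eq_mul, Complex.real_smul]
      have e2 : ∫ x, (𝓕⁻ Φ) x • (G : ℂ → ℂ) x = ∫ x, (𝓕⁻ (Φ : ℂ → ℂ)) x * g x := by
        apply integral_congr_ae
        filter_upwards [h2.coeFn_toLp] with x hx
        rw [smul_eq_mul, ← SchwartzMap.fourierInv_coe, hG, hx]
      rw [e1, key, e2, integral_fourierInv_mul Φ.integrable h1]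
      apply integral_congr_ae
      filter_upwards with x
      rw [hΦapp, Complex.real_smul]
  have hnorm : ‖F‖ = ‖G‖ := by
    rw [hF]
    exact (Lp.fourierTransformₗᵢ ℂ ℂ).symm.norm_map G
  have e3 : eLpNorm (F : ℂ → ℂ) 2 volume = eLpNorm (G : ℂ → ℂ) 2 volume := by
    have h3 := congrArg ENNReal.ofReal hnorm
    rwa [Lp.norm_def, Lp.norm_def, ENNReal.ofReal_toReal (Lp.eLpNorm_ne_top F),
      ENNReal.ofReal_toReal (Lp.eLpNorm_ne_top G)] at h3
  rw [← eLpNorm_congr_ae hae, e3, eLpNorm_congr_ae h2.coeFn_toLp]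

theorem symbol_bound (n : ℕ) (ξ : ℂ) : ‖(starRingEnd ℂ ξ / ξ) ^ n‖ ≤ 1 := by
  rw [norm_pow]
  apply pow_le_one₀ (norm_nonneg _)
  rw [norm_div, RCLike.norm_conj]
  exact div_self_le_one _

theorem symbol_measurable (n : ℕ) : Measurable fun ξ : ℂ => (starRingEnd ℂ ξ / ξ) ^ n := by
  have h : Measurable fun ξ : ℂ => starRingEnd ℂ ξ := Complex.continuous_conj.measurable
  exact (h.div measurable_id).pow_const n

theorem mult_integrable (n : ℕ) (f : 𝓢(ℂ, ℂ)) :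
    Integrable (fun ξ : ℂ => (starRingEnd ℂ ξ / ξ) ^ n * 𝓕 (f : ℂ → ℂ) ξ) := by
  have h1 : Integrable (𝓕 (f : ℂ → ℂ)) := by
    rw [← SchwartzMap.fourier_coe]; exact (𝓕 f).integrable
  exact h1.bdd_mul (symbol_measurable n).aestronglyMeasurable (c := 1)
    (Filter.Eventually.of_forall (symbol_bound n))

theorem mult_memLp (n : ℕ) (f : 𝓢(ℂ, ℂ)) :
    MemLp (fun ξ : ℂ => (starRingEnd ℂ ξ / ξ) ^ n * 𝓕 (f : ℂ → ℂ) ξ) 2 := by
  have h1 : MemLp (𝓕 (f : ℂ → ℂ)) 2 := by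
    rw [← SchwartzMap.fourier_coe]; exact (𝓕 f).memLp 2
  refine h1.mono ((symbol_measurable n).aestronglyMeasurable.mul h1.aestronglyMeasurable) ?_
  filter_upwards with ξ
  rw [norm_mul]
  exact mul_le_of_le_one_left (norm_nonneg _) (symbol_bound n ξ)

theorem planch (f : 𝓢(ℂ, ℂ)) :
    eLpNorm (𝓕 f : 𝓢(ℂ, ℂ)) 2 (volume : Measure ℂ) = eLpNorm f 2 (volume : Measure ℂ) := by
  have h2 : ‖(𝓕 f).toLp 2 (volume : Measure ℂ)‖ = ‖f.toLp 2 (volume : Measure ℂ)‖ :=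
    SchwartzMap.norm_fourier_toL2_eq f
  have h3 := congrArg ENNReal.ofReal h2
  rw [Lp.norm_def, Lp.norm_def, ENNReal.ofReal_toReal (Lp.eLpNorm_ne_top _),
    ENNReal.ofReal_toReal (Lp.eLpNorm_ne_top _)] at h3
  rw [← eLpNorm_congr_ae (SchwartzMap.coeFn_toLp (𝓕 f) 2 (volume : Measure ℂ)), h3,
    eLpNorm_congr_ae (SchwartzMap.coeFn_toLp f 2 (volume : Measure ℂ))]

theorem Tn_L2 (n : ℕ) (f : 𝓢(ℂ, ℂ)) :
    eLpNorm (Tn n f) 2 volume ≤ eLpNorm f 2 volume := by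
  have e : Tn n f = 𝓕⁻ (fun ξ : ℂ => (starRingEnd ℂ ξ / ξ) ^ n * 𝓕 (f : ℂ → ℂ) ξ) := by
    ext z; exact Tn_eq n f z
  rw [e, fourierInv_L2 (mult_integrable n f) (mult_memLp n f)]
  have h1 : eLpNorm (fun ξ : ℂ => (starRingEnd ℂ ξ / ξ) ^ n * 𝓕 (f : ℂ → ℂ) ξ) 2 volume
      ≤ eLpNorm (𝓕 (f : ℂ → ℂ)) 2 volume := by
    apply eLpNorm_mono
    intro ξ
    rw [norm_mul]
    exact mul_le_of_le_one_left (norm_nonneg _) (symbol_bound n ξ)
  refine h1.trans (le_of_eq ?_)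
  rw [← SchwartzMap.fourier_coe]
  exact planch f

theorem fourier_sub_apply (f g : 𝓢(ℂ, ℂ)) (ξ : ℂ) :
    𝓕 (⇑(f - g)) ξ = 𝓕 (f : ℂ → ℂ) ξ - 𝓕 (g : ℂ → ℂ) ξ := by
  have e : f - g = f + (-1 : ℂ) • g := by
    rw [sub_eq_add_neg, neg_one_smul]
  rw [← SchwartzMap.fourier_coe, ← SchwartzMap.fourier_coe, ← SchwartzMap.fourier_coe, e,
    FourierTransform.fourier_add, FourierTransform.fourier_smul, add_apply, smul_apply]
  simp [sub_eq_add_neg]

theorem Tn_integrable (n : ℕ) (h : 𝓢(ℂ, ℂ)) (z : ℂ) : Integrable fun ξ : ℂ =>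
      Complex.exp (2 * (Real.pi : ℂ) * Complex.I * (((z.re * ξ.re + z.im * ξ.im : ℝ)) : ℂ)) *
        ((starRingEnd ℂ ξ / ξ) ^ n * 𝓕 (h : ℂ → ℂ) ξ) := by
  refine (mult_integrable n h).bdd_mul (c := 1) ?_ ?_
  · exact (by fun_prop : Continuous fun ξ : ℂ =>
      Complex.exp (2 * (Real.pi : ℂ) * Complex.I *
        (((z.re * ξ.re + z.im * ξ.im : ℝ)) : ℂ))).aestronglyMeasurable
  · filter_upwards with ξ
    rw [Complex.norm_exp]
    simp

theorem Tn_sub (n : ℕ) (f g : 𝓢(ℂ, ℂ)) (z : ℂ) :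
    Tn n f z - Tn n g z = Tn n (⇑(f - g)) z := by
  unfold Tn
  simp_rw [fourier_eq]
  rw [← integral_sub (Tn_integrable n f z) (Tn_integrable n g z)]
  apply integral_congr_ae
  filter_upwards with ξ
  rw [fourier_sub_apply]
  ring

end Pool.Agent.Lib.MP_dd244f_an
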