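import Mathlib

set_option autoImplicit false

namespace Pool.Agent.Lib.MP_dd244f_an
open MeasureTheory Set

theorem integral_normSq (G : ℝ → ℝ) :
    ∫ z : ℂ, G (Complex.normSq z) = Real.pi * ∫ t in Ioi (0:ℝ), G t := by
  have h1 : ∫ z : ℂ, G (Complex.normSq z) = ∫ z : ℂ, (fun r => G (r ^ 2)) ‖z‖ := by
    apply integral_congr_ae
    filter_upwards with z
    simp only [Complex.normSq_eq_norm_sq]
  rw [h1, integral_fun_norm_addHaar volume (fun r => G (r ^ 2))]
  have h2 : Module.finrank ℝ ℂ = 2 := Complex.finrank_real_complex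
  have h3 : (volume : Measure ℂ).real (Metric.ball 0 1) = Real.pi := by
    rw [Measure.real, Complex.volume_ball]
    simp
  rw [h2, h3]
  have h4 := integral_comp_rpow_Ioi G (p := 2) (by norm_num)
  rw [← h4]
  have h5 : ∫ x in Ioi (0:ℝ), (|(2:ℝ)| * x ^ ((2:ℝ) - 1)) • G (x ^ (2:ℝ))
      = 2 * ∫ y in Ioi (0:ℝ), y ^ (2 - 1) • G (y ^ 2) := by
    rw [← integral_const_mul]
    apply setIntegral_congr_fun measurableSet_Ioi
    intro x hx
    simp only [smul_eq_mul]
    have : x ^ ((2:ℝ) - 1) = x := by norm_num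
    rw [this]
    have h6 : x ^ (2:ℝ) = x ^ 2 := by norm_cast
    rw [h6]
    norm_num
    ring
  rw [h5]
  simp only [smul_eq_mul, nsmul_eq_mul]
  push_cast
  ring

end Pool.Agent.Lib.MP_dd244f_an
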