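import Mathlib

set_option autoImplicit false

namespace Pool.Agent.Lib.MP_dd244f_an
open MeasureTheory SchwartzMap LineDeriv FourierTransform
open scoped SchwartzMap

/-- The Fourier multiplier `(conj ξ / ξ) ^ n` applied to `f`, i.e. the `n`-th power of the
Beurling operator, written out exactly as in the frozen statement. -/
noncomputable def Tn (n : ℕ) (f : ℂ → ℂ) (z : ℂ) : ℂ :=
  ∫ ξ : ℂ,
    Complex.exp (2 * (Real.pi : ℂ) * Complex.I * (((z.re * ξ.re + z.im * ξ.im : ℝ)) : ℂ)) *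
      ((starRingEnd ℂ ξ / ξ) ^ n *
        ∫ x : ℂ, Complex.exp (-(2 * (Real.pi : ℂ) * Complex.I *
          (((x.re * ξ.re + x.im * ξ.im : ℝ)) : ℂ))) * f x)

theorem fourier_eq (f : ℂ → ℂ) (ξ : ℂ) :
    (∫ x : ℂ, Complex.exp (-(2 * (Real.pi : ℂ) * Complex.I *
          (((x.re * ξ.re + x.im * ξ.im : ℝ)) : ℂ))) * f x) = 𝓕 f ξ := by
  rw [Real.fourier_eq']
  apply integral_congr_ae
  filter_upwards with x
  rw [smul_eq_mul]
  congr 2
  have : inner ℝ x ξ = x.re * ξ.re + x.im * ξ.im := by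
    rw [Complex.inner]; simp; ring
  rw [this]
  push_cast
  ring

theorem fourierInv_eq_int (f : ℂ → ℂ) (z : ℂ) :
    (∫ ξ : ℂ, Complex.exp (2 * (Real.pi : ℂ) * Complex.I *
          (((z.re * ξ.re + z.im * ξ.im : ℝ)) : ℂ)) * f ξ) = 𝓕⁻ f z := by
  rw [Real.fourierInv_eq']
  apply integral_congr_ae
  filter_upwards with x
  rw [smul_eq_mul]
  congr 2
  have : inner ℝ x z = z.re * x.re + z.im * x.im := by
    rw [Complex.inner]; simp
  rw [this]
  push_cast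
  ring

theorem Tn_eq (n : ℕ) (f : ℂ → ℂ) (z : ℂ) :
    Tn n f z = 𝓕⁻ (fun ξ : ℂ => (starRingEnd ℂ ξ / ξ) ^ n * 𝓕 f ξ) z := by
  unfold Tn
  simp_rw [fourier_eq]
  exact fourierInv_eq_int _ z

/-- `∂/∂ conj z` on Schwartz functions -/
noncomputable def dbar (u : 𝓢(ℂ, ℂ)) : 𝓢(ℂ, ℂ) :=
  (1 / 2 : ℂ) • (∂_{(1 : ℂ)} u + Complex.I • ∂_{Complex.I} u)
/-- `∂/∂ z` on Schwartz functions -/
noncomputable def dz (u : 𝓢(ℂ, ℂ)) : 𝓢(ℂ, ℂ) :=
  (1 / 2 : ℂ) • (∂_{(1 : ℂ)} u + (-Complex.I) • ∂_{Complex.I} u)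

theorem tg (m : ℂ) : (fun x : ℂ => inner ℝ x m).HasTemperateGrowth := by fun_prop

theorem fourier_dbar (u : 𝓢(ℂ, ℂ)) (ξ : ℂ) :
    𝓕 (dbar u) ξ = (Real.pi * Complex.I * ξ) * 𝓕 u ξ := by
  unfold dbar
  rw [FourierTransform.fourier_smul, FourierTransform.fourier_add, FourierTransform.fourier_smul,
    fourier_lineDerivOp_eq, fourier_lineDerivOp_eq]
  simp only [smul_apply, add_apply, smulLeftCLM_apply_apply (tg _),
    smul_eq_mul, Complex.real_smul]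
  have h1 : inner ℝ ξ (1 : ℂ) = ξ.re := by rw [Complex.inner]; simp
  have h2 : inner ℝ ξ Complex.I = ξ.im := by rw [Complex.inner]; simp
  rw [h1, h2]
  have hξ : (ξ.re : ℂ) + ξ.im * Complex.I = ξ := Complex.re_add_im ξ
  linear_combination (Real.pi * Complex.I * (𝓕 u) ξ) * hξ

theorem fourier_dz (u : 𝓢(ℂ, ℂ)) (ξ : ℂ) :
    𝓕 (dz u) ξ = (Real.pi * Complex.I * starRingEnd ℂ ξ) * 𝓕 u ξ := by
  unfold dz
  rw [FourierTransform.fourier_smul, FourierTransform.fourier_add, FourierTransform.fourier_smul,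
    fourier_lineDerivOp_eq, fourier_lineDerivOp_eq]
  simp only [smul_apply, add_apply, smulLeftCLM_apply_apply (tg _),
    smul_eq_mul, Complex.real_smul]
  have h1 : inner ℝ ξ (1 : ℂ) = ξ.re := by rw [Complex.inner]; simp
  have h2 : inner ℝ ξ Complex.I = ξ.im := by rw [Complex.inner]; simp
  rw [h1, h2]
  have hξ : starRingEnd ℂ ξ = ξ.re - ξ.im * Complex.I := by
    apply Complex.ext <;> simp
  rw [hξ]
  ring

theorem fourier_dbar_iter (n : ℕ) (u : 𝓢(ℂ, ℂ)) (ξ : ℂ) :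
    𝓕 (dbar^[n] u) ξ = (Real.pi * Complex.I * ξ) ^ n * 𝓕 u ξ := by
  induction n generalizing u with
  | zero => simp
  | succ n ih => rw [Function.iterate_succ_apply, ih, fourier_dbar]; ring

theorem fourier_dz_iter (n : ℕ) (u : 𝓢(ℂ, ℂ)) (ξ : ℂ) :
    𝓕 (dz^[n] u) ξ = (Real.pi * Complex.I * starRingEnd ℂ ξ) ^ n * 𝓕 u ξ := by
  induction n generalizing u with
  | zero => simp
  | succ n ih => rw [Function.iterate_succ_apply, ih, fourier_dz]; ring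

/-- `T^n` maps `∂bar^n u` to `∂^n u`. -/
theorem Tn_dbar (n : ℕ) (u : 𝓢(ℂ, ℂ)) (z : ℂ) : Tn n (dbar^[n] u) z = (dz^[n] u) z := by
  rw [Tn_eq]
  have h : (fun ξ : ℂ => (starRingEnd ℂ ξ / ξ) ^ n * 𝓕 (⇑(dbar^[n] u)) ξ) = 𝓕 (⇑(dz^[n] u)) := by
    ext ξ
    rw [← SchwartzMap.fourier_coe, ← SchwartzMap.fourier_coe, fourier_dbar_iter, fourier_dz_iter]
    rcases eq_or_ne n 0 with rfl | hn
    · simp
    rcases eq_or_ne ξ 0 with rfl | hξ
    · simp [hn]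
    · rw [← mul_assoc, ← mul_pow]
      congr 2
      field_simp
  rw [h, ← SchwartzMap.fourier_coe, ← SchwartzMap.fourierInv_coe]
  simp

end Pool.Agent.Lib.MP_dd244f_an
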