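import Pool.Agent.Lib.MP_dd244f_an.Mode
import Pool.Agent.Lib.MP_dd244f_an.L2
import Pool.Agent.Lib.MP_dd244f_an.Polar

set_option autoImplicit false

namespace Pool.Agent.Lib.MP_dd244f_an
open MeasureTheory SchwartzMap FourierTransform Filter Topology Set
open scoped SchwartzMap ContDiff

/-! ### Primitives -/

theorem exists_prim {g : ℝ → ℂ} (hg : ContDiff ℝ ∞ g) {b : ℝ} (hb : ∀ t, b ≤ t → g t = 0) :
    ∃ G : ℝ → ℂ, ContDiff ℝ ∞ G ∧ (∀ t, HasDerivAt G (g t) t) ∧ ∀ t, b ≤ t → G t = 0 := by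
  refine ⟨fun t => ∫ s in b..t, g s, ?_, ?_, ?_⟩
  · have hd : ∀ t, HasDerivAt (fun t => ∫ s in b..t, g s) (g t) t := fun t =>
      (hg.continuous.integral_hasStrictDerivAt b t).hasDerivAt
    rw [contDiff_infty_iff_deriv]
    refine ⟨fun t => (hd t).differentiableAt, ?_⟩
    have : deriv (fun t => ∫ s in b..t, g s) = g := funext fun t => (hd t).deriv
    rw [this]
    exact hg
  · exact fun t => (hg.continuous.integral_hasStrictDerivAt b t).hasDerivAt
  · intro t ht
    have : ∫ s in b..t, g s = ∫ s in b..t, (0 : ℂ) := by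
      apply intervalIntegral.integral_congr
      intro s hs
      rw [uIcc_of_le ht] at hs
      exact hb s hs.1
    simp only
    rw [this]
    simp

/-- A smooth function vanishing on a right half line is, on `(-1, ∞)`, the `n`-th derivative of a
Schwartz function. -/
theorem exists_iter_prim (n : ℕ) : ∀ {g : ℝ → ℂ} (_ : ContDiff ℝ ∞ g) {b : ℝ}
    (_ : ∀ t, b ≤ t → g t = 0), ∃ V : 𝓢(ℝ, ℂ), ∀ t, -1 < t → (dd^[n] V) t = g t := by
  induction n with
  | zero =>
    intro g hg b hb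
    set η : ℝ → ℂ := fun t => ((Real.smoothTransition (t + 2) : ℝ) : ℂ) with hη
    have hηs : ContDiff ℝ ∞ η := by
      apply Complex.ofRealCLM.contDiff.comp
      exact Real.smoothTransition.contDiff.comp (contDiff_id.add contDiff_const)
    have hs : ContDiff ℝ ∞ (fun t => η t * g t) := hηs.mul hg
    have hc : HasCompactSupport (fun t => η t * g t) := by
      apply HasCompactSupport.intro (isCompact_Icc (a := -2) (b := b))
      intro t ht
      rw [mem_Icc, not_and_or, not_le, not_le] at ht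
      rcases ht with ht | ht
      · simp only [hη]
        rw [Real.smoothTransition.zero_of_nonpos (by linarith)]
        simp
      · show η t * g t = 0
        rw [hb t ht.le, mul_zero]
    refine ⟨hc.toSchwartzMap hs, fun t ht => ?_⟩
    simp only [Function.iterate_zero, id]
    change η t * g t = g t
    simp only [hη]
    rw [Real.smoothTransition.one_of_one_le (by linarith)]
    simp
  | succ n ih =>
    intro g hg b hb
    obtain ⟨G, hG, hGd, hGb⟩ := exists_prim hg hb
    obtain ⟨V, hV⟩ := ih hG hGb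
    refine ⟨V, fun t ht => ?_⟩
    rw [Function.iterate_succ_apply', dd_apply]
    have : (dd^[n] V : ℝ → ℂ) =ᶠ[𝓝 t] G := by
      filter_upwards [lt_mem_nhds ht] with s hs
      exact hV s hs
    rw [this.deriv_eq, (hGd t).deriv]

/-! ### Cutoffs -/

/-- smooth cutoffs tending to one on the positive half line -/
noncomputable def chi (k : ℕ) (t : ℝ) : ℝ :=
  Real.smoothTransition (k * t - 1) * Real.smoothTransition (k - t)

theorem chi_contDiff (k : ℕ) : ContDiff ℝ ∞ (chi k) := by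
  unfold chi
  apply ContDiff.mul
  · exact Real.smoothTransition.contDiff.comp ((contDiff_const.mul contDiff_id).sub contDiff_const)
  · exact Real.smoothTransition.contDiff.comp (contDiff_const.sub contDiff_id)

theorem chi_nonneg (k : ℕ) (t : ℝ) : 0 ≤ chi k t :=
  mul_nonneg (Real.smoothTransition.nonneg _) (Real.smoothTransition.nonneg _)

theorem chi_le_one (k : ℕ) (t : ℝ) : chi k t ≤ 1 :=
  mul_le_one₀ (Real.smoothTransition.le_one _) (Real.smoothTransition.nonneg _)
    (Real.smoothTransition.le_one _)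

theorem chi_of_small {k : ℕ} {t : ℝ} (h : k * t < 1) : chi k t = 0 := by
  unfold chi; rw [Real.smoothTransition.zero_of_nonpos (by linarith), zero_mul]

theorem chi_of_large {k : ℕ} {t : ℝ} (h : (k : ℝ) ≤ t) : chi k t = 0 := by
  unfold chi
  rw [Real.smoothTransition.zero_of_nonpos (by linarith : (k : ℝ) - t ≤ 0), mul_zero]

theorem chi_tendsto {t : ℝ} (ht : 0 < t) : Tendsto (fun k => chi k t) atTop (𝓝 1) := by
  apply tendsto_const_nhds.congr'
  have h1 : ∀ᶠ k : ℕ in atTop, 2 / t ≤ k := by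
    exact tendsto_natCast_atTop_atTop.eventually_ge_atTop _
  have h2 : ∀ᶠ k : ℕ in atTop, t + 1 ≤ k := by
    exact tendsto_natCast_atTop_atTop.eventually_ge_atTop _
  filter_upwards [h1, h2] with k hk1 hk2
  unfold chi
  rw [div_le_iff₀ ht] at hk1
  rw [Real.smoothTransition.one_of_one_le (by linarith), Real.smoothTransition.one_of_one_le
    (by linarith), mul_one]

/-- the profile of the truncated function -/
noncomputable def gk (n : ℕ) (f : ℂ → ℂ) (k : ℕ) (t : ℝ) : ℂ :=
  (chi k t : ℂ) * (((t : ℂ) ^ n)⁻¹ * f ((Real.sqrt t : ℝ) : ℂ))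

theorem gk_contDiff (n : ℕ) (f : 𝓢(ℂ, ℂ)) (k : ℕ) : ContDiff ℝ ∞ (gk n f k) := by
  rw [contDiff_iff_contDiffAt]
  intro t
  rcases le_or_gt t 0 with ht | ht
  · have h0 : (k : ℝ) * t < 1 := by
      have : (k : ℝ) * t ≤ 0 := mul_nonpos_of_nonneg_of_nonpos (Nat.cast_nonneg k) ht
      linarith
    have h1 : gk n f k =ᶠ[𝓝 t] fun _ => 0 := by
      have : ∀ᶠ s in 𝓝 t, (k : ℝ) * s < 1 := by
        have hc : Continuous fun s : ℝ => (k : ℝ) * s := by fun_prop
        exact hc.continuousAt.eventually_lt continuousAt_const h0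
      filter_upwards [this] with s hs
      unfold gk
      rw [chi_of_small hs]
      simp
    exact contDiffAt_const.congr_of_eventuallyEq h1
  · unfold gk
    have hchi : ContDiffAt ℝ ∞ (fun t : ℝ => (chi k t : ℂ)) t :=
      (Complex.ofRealCLM.contDiff.comp (chi_contDiff k)).contDiffAt
    have hpow : ContDiffAt ℝ ∞ (fun t : ℝ => (t : ℂ) ^ n) t :=
      (Complex.ofRealCLM.contDiff.pow n).contDiffAt
    have hne : (t : ℂ) ^ n ≠ 0 := pow_ne_zero _ (by exact_mod_cast ht.ne')
    have hinv : ContDiffAt ℝ ∞ (fun t : ℝ => ((t : ℂ) ^ n)⁻¹) t := hpow.inv hne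
    have hsq : ContDiffAt ℝ ∞ (fun t : ℝ => ((Real.sqrt t : ℝ) : ℂ)) t :=
      Complex.ofRealCLM.contDiff.contDiffAt.comp t (Real.contDiffAt_sqrt ht.ne')
    have hf : ContDiffAt ℝ ∞ (fun t : ℝ => f ((Real.sqrt t : ℝ) : ℂ)) t :=
      (f.smooth ⊤).contDiffAt.comp t hsq
    exact hchi.mul (hinv.mul hf)

theorem gk_large (n : ℕ) (f : ℂ → ℂ) (k : ℕ) (t : ℝ) (h : (k : ℝ) ≤ t) : gk n f k t = 0 := by
  unfold gk
  rw [chi_of_large h]
  simp

theorem mode_eq {m : ℕ} {f : ℂ → ℂ} (hf : ∀ w z : ℂ, ‖w‖ = 1 → f (w * z) = w ^ m * f z)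
    {z : ℂ} (hz : z ≠ 0) : f z = z ^ m * (((‖z‖ : ℝ) : ℂ) ^ m)⁻¹ * f ((‖z‖ : ℝ) : ℂ) := by
  have hz' : ((‖z‖ : ℝ) : ℂ) ≠ 0 := by exact_mod_cast norm_ne_zero_iff.2 hz
  have h := hf (z / (‖z‖ : ℝ)) ((‖z‖ : ℝ) : ℂ) (by
    rw [norm_div]
    simp [norm_ne_zero_iff.2 hz])
  rw [div_mul_cancel₀ _ hz'] at h
  rw [h, div_pow, div_eq_mul_inv]

/-- The truncation of a Schwartz function of mode `2n` is of the form handled by `Tn_modeMap`. -/
theorem exists_trunc (n : ℕ) (f : 𝓢(ℂ, ℂ))
    (hf : ∀ w z : ℂ, ‖w‖ = 1 → f (w * z) = w ^ (n + n) * f z) (k : ℕ) :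
    ∃ V : 𝓢(ℝ, ℂ), ∀ z : ℂ, modeMap (n + n) (dd^[n] V) z = (chi k (Complex.normSq z) : ℂ) * f z := by
  obtain ⟨V, hV⟩ := exists_iter_prim n (gk_contDiff n f k) (b := k) (fun t ht => gk_large n f k t ht)
  refine ⟨V, fun z => ?_⟩
  rw [modeMap_apply, hV _ (by linarith [Complex.normSq_nonneg z])]
  rcases eq_or_ne z 0 with rfl | hz
  · unfold gk
    rw [map_zero, chi_of_small (by simp)]
    simp
  · unfold gk
    rw [mode_eq hf hz]
    have e1 : Real.sqrt (Complex.normSq z) = ‖z‖ := rfl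
    rw [e1, Complex.normSq_eq_norm_sq]
    push_cast
    have hz' : ((‖z‖ : ℝ) : ℂ) ≠ 0 := by exact_mod_cast norm_ne_zero_iff.2 hz
    rw [← pow_mul, two_mul]
    ring

theorem Tn_aesm (n : ℕ) (f : 𝓢(ℂ, ℂ)) : AEStronglyMeasurable (Tn n f) volume := by
  have e : Tn n f = 𝓕⁻ (fun ξ : ℂ => (starRingEnd ℂ ξ / ξ) ^ n * 𝓕 (f : ℂ → ℂ) ξ) := by
    ext z; exact Tn_eq n f z
  rw [e]
  set g := (fun ξ : ℂ => (starRingEnd ℂ ξ / ξ) ^ n * 𝓕 (f : ℂ → ℂ) ξ)
  have : 𝓕⁻ g = fun w => 𝓕 g (-w) := by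
    ext w; rw [Real.fourierInv_eq_fourier_neg]
  rw [this]
  have hc : Continuous (𝓕 g) :=
    VectorFourier.fourierIntegral_continuous Real.continuous_fourierChar
      (by exact continuous_inner) (mult_integrable n f)
  exact (hc.comp continuous_neg).aestronglyMeasurable

/-- Reduction of the mode `2n` bound for Schwartz functions to a one-dimensional inequality. -/
theorem mode_reduction (n : ℕ) {p C : ℝ} (hp : 1 ≤ p) (hC : 0 ≤ C)
    (h1 : ∀ V : 𝓢(ℝ, ℂ), ∫ t in Ioi (0:ℝ), ‖outP n V t‖ ^ p ≤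
      C ^ p * ∫ t in Ioi (0:ℝ), ‖(t : ℂ) ^ n * (dd^[n] V) t‖ ^ p)
    (f : 𝓢(ℂ, ℂ)) (hf : ∀ w z : ℂ, ‖w‖ = 1 → f (w * z) = w ^ (2 * n) * f z) :
    eLpNorm (Tn n f) (ENNReal.ofReal p) volume ≤
      ENNReal.ofReal C * eLpNorm f (ENNReal.ofReal p) volume := by
  have hp0 : 0 < p := by linarith
  rw [two_mul] at hf
  choose V hV using exists_trunc n f hf
  -- the bound for the truncated functions
  have hpR : (ENNReal.ofReal p).toReal = p := ENNReal.toReal_ofReal hp0.le
  have hpne : ENNReal.ofReal p ≠ 0 := by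
    rw [Ne, ENNReal.ofReal_eq_zero, not_le]; exact hp0
  have hptop : ENNReal.ofReal p ≠ ⊤ := ENNReal.ofReal_ne_top
  have hbound : ∀ V : 𝓢(ℝ, ℂ), eLpNorm (Tn n (modeMap (n + n) (dd^[n] V))) (ENNReal.ofReal p) volume
      ≤ ENNReal.ofReal C * eLpNorm (modeMap (n + n) (dd^[n] V)) (ENNReal.ofReal p) volume := by
    intro V
    have e1 : Tn n (modeMap (n + n) (dd^[n] V)) = modeMap 0 (outP n V) := by
      ext z; rw [Tn_modeMap, modeMap_apply]; simp
    rw [e1]
    have m1 := (modeMap 0 (outP n V)).memLp (ENNReal.ofReal p)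
      (volume : Measure ℂ)
    have m2 := (modeMap (n + n) (dd^[n] V)).memLp (ENNReal.ofReal p) (volume : Measure ℂ)
    rw [m1.eLpNorm_eq_integral_rpow_norm hpne hptop, m2.eLpNorm_eq_integral_rpow_norm hpne hptop,
      hpR, ← ENNReal.ofReal_mul hC]
    apply ENNReal.ofReal_le_ofReal
    have i1 : ∫ z : ℂ, ‖modeMap 0 (outP n V) z‖ ^ p
        = Real.pi * ∫ t in Ioi (0:ℝ), ‖outP n V t‖ ^ p := by
      rw [← integral_normSq]
      apply integral_congr_ae
      filter_upwards with z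
      rw [modeMap_apply]
      simp
    have i2 : ∫ z : ℂ, ‖modeMap (n + n) (dd^[n] V) z‖ ^ p
        = Real.pi * ∫ t in Ioi (0:ℝ), ‖(t : ℂ) ^ n * (dd^[n] V) t‖ ^ p := by
      rw [← integral_normSq (fun t => ‖(t : ℂ) ^ n * (dd^[n] V) t‖ ^ p)]
      apply integral_congr_ae
      filter_upwards with z
      rw [modeMap_apply, norm_mul, norm_mul, norm_pow, norm_pow]
      congr 2
      rw [Complex.norm_real, Real.norm_eq_abs, abs_of_nonneg (Complex.normSq_nonneg z),
        Complex.normSq_eq_norm_sq, ← pow_mul, two_mul]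
    rw [i1, i2]
    have h2 := h1 V
    have h3 : Real.pi * ∫ t in Ioi (0:ℝ), ‖outP n V t‖ ^ p ≤
        C ^ p * (Real.pi * ∫ t in Ioi (0:ℝ), ‖(t : ℂ) ^ n * (dd^[n] V) t‖ ^ p) := by
      have := mul_le_mul_of_nonneg_left h2 Real.pi_pos.le
      linarith
    have i3 : 0 ≤ Real.pi * ∫ t in Ioi (0:ℝ), ‖outP n V t‖ ^ p := by
      apply mul_nonneg Real.pi_pos.le
      exact integral_nonneg fun t => Real.rpow_nonneg (norm_nonneg _) _
    have i4 : 0 ≤ Real.pi * ∫ t in Ioi (0:ℝ), ‖(t : ℂ) ^ n * (dd^[n] V) t‖ ^ p := by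
      apply mul_nonneg Real.pi_pos.le
      exact integral_nonneg fun t => Real.rpow_nonneg (norm_nonneg _) _
    have h4 := Real.rpow_le_rpow i3 h3 (by positivity : 0 ≤ p⁻¹)
    rw [Real.mul_rpow (Real.rpow_nonneg hC _) i4, Real.rpow_rpow_inv hC hp0.ne'] at h4
    exact h4
  -- pass to the limit
  apply eLpNorm_le_of_tendstoInMeasure (u := atTop)
    (f := fun k => Tn n (modeMap (n + n) (dd^[n] (V k))))
  · filter_upwards with k
    refine (hbound (V k)).trans ?_
    gcongr
    apply eLpNorm_mono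
    intro z
    rw [hV, norm_mul, Complex.norm_real, Real.norm_eq_abs, abs_of_nonneg (chi_nonneg _ _)]
    exact mul_le_of_le_one_left (norm_nonneg _) (chi_le_one _ _)
  · apply tendstoInMeasure_of_tendsto_eLpNorm (p := 2) (by norm_num)
      (fun k => Tn_aesm n _) (Tn_aesm n f)
    have hle : ∀ k, eLpNorm ((Tn n (modeMap (n + n) (dd^[n] (V k)))) - Tn n f) 2 volume ≤
        eLpNorm (fun z => ((chi k (Complex.normSq z) : ℂ) - 1) * f z) 2 volume := by
      intro k
      have e2 : (Tn n (modeMap (n + n) (dd^[n] (V k)))) - Tn n f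
          = Tn n (⇑(modeMap (n + n) (dd^[n] (V k)) - f)) := by
        ext z; exact Tn_sub n _ f z
      rw [e2]
      refine (Tn_L2 n _).trans (le_of_eq ?_)
      apply eLpNorm_congr_ae
      filter_upwards with z
      rw [sub_apply, hV]
      ring
    refine tendsto_of_tendsto_of_tendsto_of_le_of_le tendsto_const_nhds ?_
      (fun k => bot_le) hle
    -- dominated convergence
    have e3 : ∀ k, eLpNorm (fun z => ((chi k (Complex.normSq z) : ℂ) - 1) * f z) 2 volume
        = (∫⁻ z, ‖((chi k (Complex.normSq z) : ℂ) - 1) * f z‖ₑ ^ (2:ℝ)) ^ (1 / (2:ℝ)) := by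
      intro k
      rw [eLpNorm_eq_lintegral_rpow_enorm_toReal (by norm_num) (by norm_num)]
      simp
    simp_rw [e3]
    have hfin : ∫⁻ z, ‖f z‖ₑ ^ (2:ℝ) ≠ ⊤ := by
      have := (f.memLp 2 (volume : Measure ℂ)).eLpNorm_ne_top
      rw [eLpNorm_eq_lintegral_rpow_enorm_toReal (by norm_num) (by norm_num)] at this
      simp only [ENNReal.toReal_ofNat] at this
      intro hcon
      rw [hcon] at this
      simp at this
    have hlim : Tendsto (fun k => ∫⁻ z, ‖((chi k (Complex.normSq z) : ℂ) - 1) * f z‖ₑ ^ (2:ℝ)) atTop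
        (𝓝 (∫⁻ _ : ℂ, 0)) := by
      apply tendsto_lintegral_of_dominated_convergence (fun z => ‖f z‖ₑ ^ (2:ℝ))
      · intro k
        have hcm : Continuous fun z : ℂ => ((chi k (Complex.normSq z) : ℂ) - 1) * f z := by
          have hc1 : Continuous fun z : ℂ => ((chi k (Complex.normSq z) : ℝ) : ℂ) :=
            Complex.continuous_ofReal.comp ((chi_contDiff k).continuous.comp
              Complex.continuous_normSq)
          exact (hc1.sub continuous_const).mul f.continuous
        exact (hcm.enorm.measurable).pow_const _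
      · intro k
        filter_upwards with z
        gcongr
        rw [← ofReal_norm, ← ofReal_norm]
        apply ENNReal.ofReal_le_ofReal
        rw [norm_mul]
        apply mul_le_of_le_one_left (norm_nonneg _)
        have : ((chi k (Complex.normSq z) : ℂ) - 1) = ((chi k (Complex.normSq z) - 1 : ℝ) : ℂ) := by
          push_cast; ring
        rw [this, Complex.norm_real, Real.norm_eq_abs, abs_le]
        constructor <;> linarith [chi_nonneg k (Complex.normSq z), chi_le_one k (Complex.normSq z)]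
      · exact hfin
      · have hne : ∀ᵐ z : ℂ, z ≠ 0 := by
          rw [ae_iff]; simp
        filter_upwards [hne] with z hz
        have h5 : Tendsto (fun k => ((chi k (Complex.normSq z) : ℂ) - 1) * f z) atTop
            (𝓝 ((((1:ℝ) : ℂ) - 1) * f z)) := by
          apply Tendsto.mul_const
          apply Tendsto.sub_const
          exact (Complex.continuous_ofReal.tendsto _).comp
            (chi_tendsto (Complex.normSq_pos.2 hz))
        have h6 : Tendsto (fun k => ‖((chi k (Complex.normSq z) : ℂ) - 1) * f z‖ₑ ^ (2:ℝ)) atTop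
            (𝓝 (‖(((1:ℝ) : ℂ) - 1) * f z‖ₑ ^ (2:ℝ))) :=
          (ENNReal.continuous_rpow_const.tendsto _).comp ((continuous_enorm.tendsto _).comp h5)
        simpa using h6
    have h7 := (ENNReal.continuous_rpow_const (y := 1 / (2:ℝ))).tendsto (∫⁻ _ : ℂ, 0)
    have h8 := h7.comp hlim
    simpa [Function.comp_def] using h8
  · exact fun k => Tn_aesm n _

end Pool.Agent.Lib.MP_dd244f_an
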