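import Pool.Agent.Lib.MP_dd244f_an.Op

set_option autoImplicit false

namespace Pool.Agent.Lib.MP_dd244f_an
open MeasureTheory SchwartzMap LineDeriv FourierTransform
open scoped SchwartzMap

theorem tg_normSq : (fun z : ℂ => Complex.normSq z).HasTemperateGrowth := by
  have h1 : (fun z : ℂ => z.re).HasTemperateGrowth := Complex.reCLM.hasTemperateGrowth
  have h2 : (fun z : ℂ => z.im).HasTemperateGrowth := Complex.imCLM.hasTemperateGrowth
  have h3 : (fun z : ℂ => z.re * z.re + z.im * z.im).HasTemperateGrowth :=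
    (h1.mul h1).add (h2.mul h2)
  exact h3

theorem tg_pow (k : ℕ) : (fun z : ℂ => z ^ k).HasTemperateGrowth := by
  induction k with
  | zero =>
    have e : (fun z : ℂ => z ^ 0) = (fun _ : ℂ => (1 : ℂ)) := by ext z; simp
    rw [e]
    exact Function.HasTemperateGrowth.const (1 : ℂ)
  | succ k ih =>
    have h1 : (fun z : ℂ => z).HasTemperateGrowth := Function.HasTemperateGrowth.id
    have e : (fun z : ℂ => z ^ (k + 1)) = (fun z : ℂ => z ^ k) * (fun z : ℂ => z) := by
      ext z; simp [pow_succ]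
    rw [e]
    exact ih.mul h1

theorem upper_normSq : ∃ (k : ℕ) (C : ℝ), ∀ z : ℂ, ‖z‖ ≤ C * (1 + ‖Complex.normSq z‖) ^ k := by
  refine ⟨1, 1, fun z => ?_⟩
  rw [Complex.normSq_eq_norm_sq, Real.norm_eq_abs, abs_of_nonneg (sq_nonneg _)]
  nlinarith [sq_nonneg (‖z‖ - 1), norm_nonneg z]

/-- The Schwartz function `z ↦ z ^ k * V (|z|^2)`. -/
noncomputable def modeMap (k : ℕ) (V : 𝓢(ℝ, ℂ)) : 𝓢(ℂ, ℂ) :=
  smulLeftCLM ℂ (fun z : ℂ => z ^ k) (compCLM ℂ tg_normSq upper_normSq V)

theorem modeMap_apply (k : ℕ) (V : 𝓢(ℝ, ℂ)) (z : ℂ) :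
    modeMap k V z = z ^ k * V (Complex.normSq z) := by
  unfold modeMap
  rw [smulLeftCLM_apply_apply (tg_pow k)]
  simp

/-- multiplication by the variable -/
noncomputable def mulT (V : 𝓢(ℝ, ℂ)) : 𝓢(ℝ, ℂ) := smulLeftCLM ℂ (fun t : ℝ => (t : ℂ)) V

theorem tg_t : (fun t : ℝ => (t : ℂ)).HasTemperateGrowth := Complex.ofRealCLM.hasTemperateGrowth

theorem mulT_apply (V : 𝓢(ℝ, ℂ)) (t : ℝ) : mulT V t = (t : ℂ) * V t := by
  unfold mulT
  rw [smulLeftCLM_apply_apply tg_t, smul_eq_mul]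

/-- derivative of a Schwartz function on the line -/
noncomputable def dd (V : 𝓢(ℝ, ℂ)) : 𝓢(ℝ, ℂ) := derivCLM ℂ ℂ V

theorem dd_apply (V : 𝓢(ℝ, ℂ)) (t : ℝ) : dd V t = deriv V t := rfl

theorem hasDerivAt_dd (V : 𝓢(ℝ, ℂ)) (t : ℝ) : HasDerivAt V (dd V t) t := V.hasDerivAt t

theorem hasDerivAt_normSq' {F : ℝ → ℂ} {F' : ℂ} {t : ℝ} (h : HasDerivAt F F' t) :
    HasDerivAt (fun t => Complex.normSq (F t)) (2 * ((F t).re * F'.re + (F t).im * F'.im)) t := by
  have h1 : HasDerivAt (fun t => (F t).re) F'.re t :=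
    Complex.reCLM.hasFDerivAt.comp_hasDerivAt t h
  have h2 : HasDerivAt (fun t => (F t).im) F'.im t :=
    Complex.imCLM.hasFDerivAt.comp_hasDerivAt t h
  have h3 := (h1.mul h1).add (h2.mul h2)
  have e : (fun t => Complex.normSq (F t)) = (fun t => (F t).re) * (fun t => (F t).re)
      + (fun t => (F t).im) * (fun t => (F t).im) := by
    ext t; simp [Complex.normSq_apply]
  rw [e]
  exact h3.congr_deriv (by ring)

theorem modeMap_lineDeriv (k : ℕ) (V : 𝓢(ℝ, ℂ)) (m z : ℂ) :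
    ∂_{m} (modeMap k V) z = k * z ^ (k - 1) * m * V (Complex.normSq z)
      + z ^ k * ((2 * (z.re * m.re + z.im * m.im) : ℝ) * dd V (Complex.normSq z)) := by
  rw [lineDerivOp_apply, lineDeriv]
  have e : (fun s : ℝ => modeMap k V (z + s • m)) =
      (fun s : ℝ => (z + s • m) ^ k) * (fun s : ℝ => V (Complex.normSq (z + s • m))) := by
    ext s; rw [modeMap_apply]; rfl
  rw [e]
  have h1 : HasDerivAt (fun s : ℝ => z + s • m) m 0 := by
    have := ((hasDerivAt_id (0 : ℝ)).smul_const m).const_add z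
    simpa using this
  have h2 : HasDerivAt (fun s : ℝ => (z + s • m) ^ k) (k * z ^ (k - 1) * m) 0 := by
    have := h1.fun_pow k
    simpa using this
  have h3 := hasDerivAt_normSq' h1
  have h4 : HasDerivAt (fun s : ℝ => V (Complex.normSq (z + s • m)))
      ((2 * (z.re * m.re + z.im * m.im) : ℝ) • dd V (Complex.normSq z)) 0 := by
    have h5 := hasDerivAt_dd V (Complex.normSq (z + (0:ℝ) • m))
    have h7 := HasDerivAt.scomp (0 : ℝ) h5 h3
    have e0 : z + (0:ℝ) • m = z := by simp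
    rw [e0] at h7
    exact h7
  have h6 := h2.mul h4
  rw [h6.deriv]
  simp

theorem dbar_modeMap (k : ℕ) (V : 𝓢(ℝ, ℂ)) : dbar (modeMap k V) = modeMap (k + 1) (dd V) := by
  ext z
  unfold dbar
  simp only [smul_apply, add_apply, smul_eq_mul]
  rw [modeMap_lineDeriv, modeMap_lineDeriv, modeMap_apply]
  simp only [Complex.one_re, Complex.one_im, Complex.I_re, Complex.I_im]
  have hz : (z.re : ℂ) + z.im * Complex.I = z := Complex.re_add_im z
  push_cast
  linear_combination (z ^ k * dd V (Complex.normSq z)) * hz +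
    (1 / 2 * k * z ^ (k - 1) * V (Complex.normSq z)) * Complex.I_sq

theorem dz_modeMap (k : ℕ) (V : 𝓢(ℝ, ℂ)) :
    dz (modeMap (k + 1) V) = modeMap k (((k : ℂ) + 1) • V + mulT (dd V)) := by
  ext z
  unfold dz
  simp only [smul_apply, add_apply, smul_eq_mul]
  rw [modeMap_lineDeriv, modeMap_lineDeriv, modeMap_apply]
  simp only [Complex.one_re, Complex.one_im, Complex.I_re, Complex.I_im, smul_apply, add_apply,
    smul_eq_mul, mulT_apply]
  have hz : (z.re : ℂ) + z.im * Complex.I = z := Complex.re_add_im z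
  have hzc : (z.re : ℂ) - z.im * Complex.I = starRingEnd ℂ z := by
    apply Complex.ext <;> simp
  have hn : ((Complex.normSq z : ℝ) : ℂ) = z * starRingEnd ℂ z := by
    rw [Complex.mul_conj]
  rw [hn]
  push_cast
  linear_combination (z ^ (k + 1) * dd V (Complex.normSq z)) * hzc -
    (1 / 2 * (k + 1) * z ^ k * V (Complex.normSq z)) * Complex.I_sq

theorem dbar_iter_modeMap (n k : ℕ) (V : 𝓢(ℝ, ℂ)) :
    dbar^[n] (modeMap k V) = modeMap (k + n) (dd^[n] V) := by
  induction n generalizing k V with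
  | zero => simp
  | succ n ih =>
    rw [Function.iterate_succ_apply, dbar_modeMap, ih, ← Function.iterate_succ_apply]
    congr 1
    ring

/-- The radial profile of `∂^n (z^n V(|z|^2))`; it equals `(t^n V)^{(n)}`. -/
noncomputable def outP : ℕ → 𝓢(ℝ, ℂ) → 𝓢(ℝ, ℂ)
  | 0, V => V
  | n + 1, V => outP n (((n : ℂ) + 1) • V + mulT (dd V))

theorem dz_iter_modeMap (n : ℕ) (V : 𝓢(ℝ, ℂ)) :
    dz^[n] (modeMap n V) = modeMap 0 (outP n V) := by
  induction n generalizing V with
  | zero => rfl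
  | succ n ih => rw [Function.iterate_succ_apply, dz_modeMap, ih]; rfl

/-- `T^n` on the mode `2n`: for Schwartz `V`, the function `z^{2n} V^{(n)}(|z|^2)` is mapped to the
radial function with profile `outP n V`. -/
theorem Tn_modeMap (n : ℕ) (V : 𝓢(ℝ, ℂ)) (z : ℂ) :
    Tn n (modeMap (n + n) (dd^[n] V)) z = outP n V (Complex.normSq z) := by
  rw [← dbar_iter_modeMap, Tn_dbar, dz_iter_modeMap, modeMap_apply]
  simp

end Pool.Agent.Lib.MP_dd244f_an
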